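import Mathlib

set_option autoImplicit false

namespace Pool.Agent.Pr18d2fb

/-- `E` is a space of type `(B₀)` (Fréchet space): it is complete, Hausdorff, and its topology is
given by an increasing sequence of seminorms. -/
def IsB0 (𝕜 E : Type) [RCLike 𝕜] [AddCommGroup E] [Module 𝕜 E] [UniformSpace E]
    [IsUniformAddGroup E] [ContinuousSMul 𝕜 E] : Prop :=
  CompleteSpace E ∧ T2Space E ∧ ∃ p : ℕ → Seminorm 𝕜 E, Monotone p ∧ WithSeminorms p

end Pool.Agent.Pr18d2fb
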