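import Mathlib
import Pool.Agent.Pr18d2fb.Defs

set_option autoImplicit false

namespace Pool.Agent.Pr18d2fb

open Filter Topology

variable (𝕜 : Type) [RCLike 𝕜]

/-- bounded sequences -/
abbrev X := BoundedContinuousFunction ℕ 𝕜

variable {𝕜}

lemma bound_aux (a : X 𝕜) (n : ℕ) : ‖a (n + 1) / ((n : 𝕜) + 1)‖ ≤ ‖a‖ := by
  rw [norm_div]
  have h1 : ‖((n : 𝕜) + 1)‖ = (n : ℝ) + 1 := by
    have : ((n : 𝕜) + 1) = ((n + 1 : ℕ) : 𝕜) := by push_cast; ring
    rw [this, RCLike.norm_natCast]; push_cast; ring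
  rw [h1, div_le_iff₀ (by positivity)]
  have h2 := a.norm_coe_le_norm (n + 1)
  have h3 : 0 ≤ ‖a‖ := norm_nonneg a
  have h4 : (0 : ℝ) ≤ n := Nat.cast_nonneg n
  nlinarith

/-- the weighted backward shift `(T a)(n) = a (n + 1) / (n + 1)` -/
noncomputable def Tlin : X 𝕜 →ₗ[𝕜] X 𝕜 where
  toFun a := BoundedContinuousFunction.ofNormedAddCommGroupDiscrete
    (fun n => a (n + 1) / ((n : 𝕜) + 1)) ‖a‖ (bound_aux a)
  map_add' a b := by
    ext n
    simp [add_div]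
  map_smul' c a := by
    ext n
    simp [mul_div_assoc]

noncomputable def T : X 𝕜 →L[𝕜] X 𝕜 := Tlin.mkContinuous 1 (fun a => by
  rw [one_mul, BoundedContinuousFunction.norm_le (norm_nonneg a)]
  exact bound_aux a)

lemma T_apply (a : X 𝕜) (n : ℕ) : (T a) n = a (n + 1) / ((n : 𝕜) + 1) := rfl

lemma T_norm_le (a : X 𝕜) : ‖T a‖ ≤ ‖a‖ := by
  rw [BoundedContinuousFunction.norm_le (norm_nonneg a)]
  exact bound_aux a

lemma T_pow_apply (k : ℕ) (a : X 𝕜) (n : ℕ) :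
    ((T ^ k : X 𝕜 →L[𝕜] X 𝕜) a) n = a (n + k) * ((n.factorial : 𝕜) / ((n + k).factorial : 𝕜)) := by
  induction k generalizing n with
  | zero =>
    have : (n.factorial : 𝕜) ≠ 0 := by exact_mod_cast n.factorial_ne_zero
    simp [this]
  | succ k ih =>
    have e : (T ^ (k + 1) : X 𝕜 →L[𝕜] X 𝕜) a = T ((T ^ k : X 𝕜 →L[𝕜] X 𝕜) a) := by
      rw [pow_succ']; rfl
    rw [e, T_apply, ih (n + 1)]
    have h1 : n + 1 + k = n + (k + 1) := by ring
    rw [h1]
    have h2 : ((n + 1).factorial : 𝕜) = ((n : 𝕜) + 1) * (n.factorial : 𝕜) := by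
      rw [Nat.factorial_succ]; push_cast; ring
    rw [h2]
    have h3 : ((n : 𝕜) + 1) ≠ 0 := by exact_mod_cast Nat.succ_ne_zero n
    field_simp

lemma T_pow_norm (k : ℕ) : ‖(T ^ k : X 𝕜 →L[𝕜] X 𝕜)‖ ≤ 1 / (k.factorial : ℝ) := by
  apply ContinuousLinearMap.opNorm_le_bound _ (by positivity)
  intro a
  rw [BoundedContinuousFunction.norm_le (by positivity)]
  intro n
  rw [T_pow_apply, norm_mul, norm_div, RCLike.norm_natCast, RCLike.norm_natCast, mul_comm]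
  have h1 := a.norm_coe_le_norm (n + k)
  have h2 : (n.factorial : ℝ) / ((n + k).factorial : ℝ) ≤ 1 / (k.factorial : ℝ) := by
    rw [div_le_div_iff₀ (by positivity) (by positivity), one_mul]
    exact_mod_cast Nat.le_of_dvd (Nat.factorial_pos _) (Nat.factorial_mul_factorial_dvd_factorial_add n k)
  exact mul_le_mul h2 h1 (norm_nonneg _) (by positivity)

lemma smul_pow_apply (c : 𝕜) (k : ℕ) (a : X 𝕜) :
    ((c • T : X 𝕜 →L[𝕜] X 𝕜) ^ k) a = c ^ k • ((T ^ k : X 𝕜 →L[𝕜] X 𝕜) a) := by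
  induction k generalizing a with
  | zero => simp
  | succ k ih =>
    have e1 : ((c • T : X 𝕜 →L[𝕜] X 𝕜) ^ (k + 1)) a = ((c • T : X 𝕜 →L[𝕜] X 𝕜) ^ k) (c • T a) := by
      rw [pow_succ]; rfl
    have e2 : (T ^ (k + 1) : X 𝕜 →L[𝕜] X 𝕜) a = (T ^ k : X 𝕜 →L[𝕜] X 𝕜) (T a) := by
      rw [pow_succ]; rfl
    rw [e1, e2, ih, map_smul, smul_smul, pow_succ]

lemma smul_pow' (c : 𝕜) (k : ℕ) :
    (c • T : X 𝕜 →L[𝕜] X 𝕜) ^ k = c ^ k • (T ^ k : X 𝕜 →L[𝕜] X 𝕜) := by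
  ext1 a
  exact smul_pow_apply c k a

lemma summable_pow (c : 𝕜) : Summable (fun k : ℕ => (c • T : X 𝕜 →L[𝕜] X 𝕜) ^ k) := by
  apply Summable.of_norm_bounded (g := fun k : ℕ => ‖c‖ ^ k / (k.factorial : ℝ))
  · exact Real.summable_pow_div_factorial ‖c‖
  · intro k
    rw [smul_pow', norm_smul, norm_pow, div_eq_mul_one_div]
    exact mul_le_mul_of_nonneg_left (T_pow_norm k) (by positivity)

/-- the inverse of `T - c` for `c ≠ 0` -/
lemma exists_inv (c : 𝕜) (hc : c ≠ 0) : ∃ R : X 𝕜 →L[𝕜] X 𝕜, (∀ a, T (R a) - c • R a = a) ∧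
    (∀ a, R (T a) - c • R a = a) := by
  set S : X 𝕜 →L[𝕜] X 𝕜 := c⁻¹ • T with hS
  have hsum := summable_pow (𝕜 := 𝕜) c⁻¹
  set W : X 𝕜 →L[𝕜] X 𝕜 := ∑' k : ℕ, S ^ k with hW
  have h1 : (1 - S) * W = 1 := hsum.one_sub_mul_tsum_pow
  have h2 : W * (1 - S) = 1 := hsum.tsum_pow_mul_one_sub
  have h1a : ∀ a, W a - c⁻¹ • T (W a) = a := fun a => congrArg (fun L : X 𝕜 →L[𝕜] X 𝕜 => L a) h1
  have h2a : ∀ a, W (a - c⁻¹ • T a) = a := fun a => congrArg (fun L : X 𝕜 →L[𝕜] X 𝕜 => L a) h2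
  refine ⟨-(c⁻¹ • W), fun a => ?_, fun a => ?_⟩
  · change T (-(c⁻¹ • W a)) - c • (-(c⁻¹ • W a)) = a
    rw [map_neg, map_smul, smul_neg, smul_smul, mul_inv_cancel₀ hc, one_smul, sub_neg_eq_add]
    have := h1a a
    rw [sub_eq_add_neg, add_comm] at this
    exact this
  · change -(c⁻¹ • W (T a)) - c • (-(c⁻¹ • W a)) = a
    rw [smul_neg, smul_smul, mul_inv_cancel₀ hc, one_smul, sub_neg_eq_add]
    have := h2a a
    rw [map_sub, map_smul, sub_eq_add_neg, add_comm] at this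
    exact this

variable (𝕜)

/-- the projective limit of `X` under `T` -/
noncomputable def E : Submodule 𝕜 (ℕ → X 𝕜) where
  carrier := {x | ∀ j, x j = T (x (j + 1))}
  add_mem' := by
    intro a b ha hb j
    rw [Pi.add_apply, Pi.add_apply, map_add, ← ha j, ← hb j]
  zero_mem' := by intro j; simp
  smul_mem' := by
    intro c a ha j
    rw [Pi.smul_apply, Pi.smul_apply, map_smul, ← ha j]

variable {𝕜}

lemma E_spec (x : E 𝕜) (j : ℕ) : x.1 j = T (x.1 (j + 1)) := x.2 j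

lemma E_closed : IsClosed ((E 𝕜 : Submodule 𝕜 (ℕ → X 𝕜)) : Set (ℕ → X 𝕜)) := by
  have : ((E 𝕜 : Submodule 𝕜 (ℕ → X 𝕜)) : Set (ℕ → X 𝕜)) = ⋂ j, {x : ℕ → X 𝕜 | x j = T (x (j + 1))} := by
    ext x
    simp only [SetLike.mem_coe, Set.mem_iInter]
    rfl
  rw [this]
  exact isClosed_iInter (fun j => isClosed_eq (continuous_apply j) (T.continuous.comp (continuous_apply (j + 1))))

/-- seminorms -/
noncomputable def pE (j : ℕ) : Seminorm 𝕜 (E 𝕜) :=
  (normSeminorm 𝕜 (X 𝕜)).comp ((LinearMap.proj j).comp (E 𝕜).subtype)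

lemma pE_apply (j : ℕ) (x : E 𝕜) : pE j x = ‖x.1 j‖ := rfl

instance : IsUniformAddGroup (E 𝕜) :=
  inferInstanceAs (IsUniformAddGroup (E 𝕜).toAddSubgroup)

lemma isB0 : IsB0 𝕜 (E 𝕜) := by
  refine ⟨E_closed.completeSpace_coe, inferInstance, pE, ?_, ?_⟩
  · apply monotone_nat_of_le_succ
    intro j x
    rw [pE_apply, pE_apply, E_spec x j]
    exact T_norm_le _
  · rw [SeminormFamily.withSeminorms_iff_nhds_eq_iInf]
    rw [nhds_subtype_eq_comap, nhds_pi, Filter.pi, Filter.comap_iInf]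
    refine iInf_congr (fun j => ?_)
    rw [Filter.comap_comap]
    have : 𝓝 (((0 : E 𝕜) : ℕ → X 𝕜) j) = comap norm (𝓝 0) := by
      change 𝓝 (0 : X 𝕜) = _
      rw [comap_norm_nhds_zero]
    rw [this, Filter.comap_comap]
    rfl

/-- the shift -/
noncomputable def U : E 𝕜 →L[𝕜] E 𝕜 where
  toFun x := ⟨fun j => x.1 (j + 1), fun j => E_spec x (j + 1)⟩
  map_add' _ _ := rfl
  map_smul' _ _ := rfl
  cont := by
    apply Continuous.subtype_mk
    exact continuous_pi (fun j => (continuous_apply (j + 1)).comp continuous_subtype_val)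

lemma U_apply (x : E 𝕜) (j : ℕ) : (U x).1 j = x.1 (j + 1) := rfl

theorem bij (c : 𝕜) : Function.Bijective (fun x : E 𝕜 => x - c • U x) := by
  by_cases hc : c = 0
  · subst hc
    have : (fun x : E 𝕜 => x - (0 : 𝕜) • U x) = id := by funext x; simp
    rw [this]; exact Function.bijective_id
  obtain ⟨R, h1, h2⟩ := exists_inv c hc
  constructor
  · have hinj : ∀ z : E 𝕜, z - c • U z = 0 → z = 0 := by
      intro z hz
      have hj : ∀ j, z.1 (j + 1) = 0 := by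
        intro j
        have h3 := congrArg (fun w : E 𝕜 => w.1 j) hz
        have h4 : z.1 j - c • z.1 (j + 1) = 0 := h3
        rw [E_spec z j] at h4
        have h5 := h2 (z.1 (j + 1))
        rw [← h5, ← map_smul, ← map_sub, h4, map_zero]
      apply Subtype.ext
      funext j
      rw [E_spec z j, hj j, map_zero]; rfl
    intro x y hxy
    have hxy' : x - c • U x = y - c • U y := hxy
    have : (x - y) - c • U (x - y) = 0 := by
      rw [map_sub, smul_sub]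
      have : (x - y) - (c • U x - c • U y) = (x - c • U x) - (y - c • U y) := by abel
      rw [this, hxy', sub_self]
    exact sub_eq_zero.mp (hinj _ this)
  · intro y
    have hcomm : ∀ a, T (R a) = R (T a) := by
      intro a
      have h3 := h1 a
      have h4 := h2 a
      have : T (R a) - c • R a = R (T a) - c • R a := by rw [h3, h4]
      exact sub_left_inj.mp this
    refine ⟨⟨fun j => T (R (y.1 j)), fun j => ?_⟩, ?_⟩
    · have : T (R (y.1 (j + 1))) = R (y.1 j) := by rw [hcomm, ← E_spec y j]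
      change T (R (y.1 j)) = T (T (R (y.1 (j + 1))))
      rw [this]
    · apply Subtype.ext
      funext j
      change T (R (y.1 j)) - c • T (R (y.1 (j + 1))) = y.1 j
      rw [hcomm (y.1 (j + 1)), ← E_spec y j]
      exact h1 _

/-- the basis vector -/
noncomputable def ek (k : ℕ) : X 𝕜 :=
  BoundedContinuousFunction.ofNormedAddCommGroupDiscrete (fun n => if n = k then (1 : 𝕜) else 0) 1
    (fun n => by split_ifs <;> simp)

lemma ek_apply (k n : ℕ) : (ek k : X 𝕜) n = if n = k then (1 : 𝕜) else 0 := rfl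

lemma ek_norm (k : ℕ) : 1 ≤ ‖(ek k : X 𝕜)‖ := by
  have := (ek k : X 𝕜).norm_coe_le_norm k
  simpa [ek_apply] using this

/-- the vector with divergent Neumann series -/
noncomputable def xdiv : E 𝕜 := ⟨fun j => (j.factorial : 𝕜) • ek j, fun j => by
  rw [map_smul]
  ext n
  simp only [BoundedContinuousFunction.coe_smul, T_apply, ek_apply, smul_eq_mul]
  by_cases h : n = j
  · subst h
    have h3 : ((n : 𝕜) + 1) ≠ 0 := by exact_mod_cast Nat.succ_ne_zero n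
    rw [Nat.factorial_succ]
    push_cast
    simp only [if_true]
    field_simp
  · simp [h]⟩

lemma U_iter (k : ℕ) (x : E 𝕜) (j : ℕ) : (((U ^ k : E 𝕜 →L[𝕜] E 𝕜) x).1 j) = x.1 (j + k) := by
  induction k generalizing x with
  | zero => rfl
  | succ k ih =>
    have : (U ^ (k + 1) : E 𝕜 →L[𝕜] E 𝕜) x = (U ^ k : E 𝕜 →L[𝕜] E 𝕜) (U x) := by
      rw [pow_succ]; rfl
    rw [this, ih, U_apply]
    congr 1

theorem diverges (c : 𝕜) (hc : c ≠ 0) :
    ¬ ∃ s : E 𝕜, Tendsto (fun n : ℕ => ∑ k ∈ Finset.range n, c ^ k • (U ^ k : E 𝕜 →L[𝕜] E 𝕜) xdiv) atTop (𝓝 s) := by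
  rintro ⟨s, hs⟩
  have h1 := (hs.comp (tendsto_add_atTop_nat 1)).sub hs
  rw [sub_self] at h1
  have h2 : (fun n : ℕ => ((fun n : ℕ => ∑ k ∈ Finset.range n, c ^ k • (U ^ k : E 𝕜 →L[𝕜] E 𝕜) xdiv) ∘ (fun a => a + 1)) n -
      ∑ k ∈ Finset.range n, c ^ k • (U ^ k : E 𝕜 →L[𝕜] E 𝕜) xdiv) = fun n => c ^ n • (U ^ n : E 𝕜 →L[𝕜] E 𝕜) xdiv := by
    funext n
    simp only [Function.comp, Finset.sum_range_succ, add_sub_cancel_left]
  rw [h2] at h1
  have h3 : Tendsto (fun n : ℕ => ‖(c ^ n • (U ^ n : E 𝕜 →L[𝕜] E 𝕜) xdiv).1 0‖) atTop (𝓝 0) := by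
    have hcont : Continuous (fun z : E 𝕜 => ‖z.1 0‖) :=
      continuous_norm.comp ((continuous_apply 0).comp continuous_subtype_val)
    have h := (hcont.tendsto 0).comp h1
    have e0 : ‖(0 : E 𝕜).1 0‖ = 0 := norm_zero
    rw [e0] at h
    exact h
  have h4 : ∀ n : ℕ, ‖c‖ ^ n * (n.factorial : ℝ) ≤ ‖(c ^ n • (U ^ n : E 𝕜 →L[𝕜] E 𝕜) xdiv).1 0‖ := by
    intro n
    have e : (c ^ n • (U ^ n : E 𝕜 →L[𝕜] E 𝕜) xdiv).1 0 = c ^ n • ((n.factorial : 𝕜) • ek n) := by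
      change c ^ n • (((U ^ n : E 𝕜 →L[𝕜] E 𝕜) xdiv).1 0) = _
      rw [U_iter, zero_add]; rfl
    rw [e, norm_smul, norm_smul, norm_pow, RCLike.norm_natCast]
    have := ek_norm (𝕜 := 𝕜) n
    have h5 : (0 : ℝ) ≤ (n.factorial : ℝ) := by positivity
    have h6 : 0 ≤ ‖c‖ ^ n := by positivity
    calc ‖c‖ ^ n * (n.factorial : ℝ) = ‖c‖ ^ n * ((n.factorial : ℝ) * 1) := by ring
      _ ≤ ‖c‖ ^ n * ((n.factorial : ℝ) * ‖(ek n : X 𝕜)‖) := by gcongr
  have h5 : Tendsto (fun n : ℕ => ‖c‖ ^ n * (n.factorial : ℝ)) atTop (𝓝 0) :=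
    squeeze_zero (fun n => by positivity) h4 h3
  have h6 := FloorSemiring.tendsto_pow_div_factorial_atTop (‖c‖⁻¹)
  have h7 := h5.mul h6
  have h8 : (fun n : ℕ => ‖c‖ ^ n * (n.factorial : ℝ) * (‖c‖⁻¹ ^ n / (n.factorial : ℝ))) = fun _ => 1 := by
    funext n
    have hc' : ‖c‖ ≠ 0 := norm_ne_zero_iff.mpr hc
    have : (n.factorial : ℝ) ≠ 0 := by positivity
    field_simp
    rw [← mul_pow, mul_one_div_cancel hc', one_pow]
  rw [h8, mul_zero] at h7
  have := tendsto_nhds_unique h7 tendsto_const_nhds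
  norm_num at this

end Pool.Agent.Pr18d2fb
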